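import Pool.Agent.LambdaFV.Main

/-!
Problem MP_83f2fc_pr, Q1 (negative answer): a measure `Λ` in the regime Intensive `∞` whose
Fleming-Viot process does not admit an infinite sequence of Eves.
-/

set_option autoImplicit false

open MeasureTheory Pool.Agent.LambdaFV
open scoped NNReal unitInterval

universe u

namespace Pool.Agent.Results.MP_83f2fc_pr.NoSecondEve

theorem result : ∃ Λ : Measure ℝ, IntensiveInfty Λ ∧ Λ {1} = 0 ∧
    ∀ (Ω : Type u) (mΩ : MeasurableSpace Ω) (P : Measure Ω) (𝓕 : Filtration ℝ≥0 mΩ)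
      (ρ : ℝ≥0 → Ω → ProbabilityMeasure I), IsProbabilityMeasure P →
      IsFlemingViot Λ P 𝓕 ρ → ¬ AdmitsEves P ρ :=
  ⟨Lambda0, intensive_Lambda0, Lambda0_one, fun _ _ _ _ _ _ h => not_admitsEves h⟩

end Pool.Agent.Results.MP_83f2fc_pr.NoSecondEve
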